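import Pool.Agent.Q67.QM.Final

/-!
MP_752584_lc, Q1: for every countable, quasiminimal, recursive subshift `X` over a finite alphabet
the model checking problem of `X` for locally testable languages is decidable.
-/

set_option autoImplicit false

namespace Pool.Agent.Results.MP_752584_lc.LocallyTestableDecidable

open Q67.QM

theorem result : ∀ (n : ℕ) (X : Set (Pt n)), IsSubshift X → X.Countable →
    {Y : Set (Pt n) | IsSubshift Y ∧ Y ⊂ X}.Finite →
    ComputablePred (fun w : List (Fin n) => w ∈ Lang X) →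
    ∃ f : Auto n →. Bool, Partrec f ∧ ∀ A : Auto n, IsLocallyTestable A.lang →
      ∃ b : Bool, b ∈ f A ∧ (b = true ↔ ∃ w : List (Fin n), w ∈ A.lang ∧ w ∈ Lang X) := by
  intro n X hX hc hf hB
  have hf' : {Y : Set (Pt n) | IsSubshift Y ∧ Y ⊆ X}.Finite := by
    refine (hf.insert X).subset ?_
    rintro Y ⟨hY, hYX⟩
    rcases eq_or_ne Y X with h | h
    · exact Or.inl h
    · exact Or.inr ⟨hY, hYX.ssubset_of_ne h⟩
  obtain ⟨f, hfp, h⟩ := (final n X hX hc hf' hB).1
  refine ⟨f, hfp, fun A hA => ?_⟩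
  obtain ⟨b, hb, hb'⟩ := h A hA
  refine ⟨b, hb, hb'.trans ⟨?_, ?_⟩⟩
  · rintro ⟨w, h1, h2⟩; exact ⟨w, h2, h1⟩
  · rintro ⟨w, h1, h2⟩; exact ⟨w, h2, h1⟩

end Pool.Agent.Results.MP_752584_lc.LocallyTestableDecidable
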